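import Pool.Agent.H45.K3.Ser
import Pool.Agent.H56.Inv.Final

set_option autoImplicit false

/-!
# The recursion for the basis coefficients
-/

namespace Pool.Agent.H45.K3

open Finset Pool.H56.Inv

/-- the recursion for the basis coefficients, first step. -/
theorem Bs_one {n k : ℕ} (hk : 2 * k + 1 ≤ n) :
    (1 - Polynomial.X) * PowerSeries.coeff 1 (Bs n k)
      = (1 + Polynomial.X ^ (k + 1)) * (1 - Polynomial.X ^ (n - k)) := by
  have h := congrArg (PowerSeries.coeff 1) (Bs_shift hk)
  have e1 : (1 + PowerSeries.C ((Polynomial.X : Polynomial ℤ) ^ (k + 1)) * PowerSeries.X)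
      * (1 - PowerSeries.C (Polynomial.X ^ (n + 1)) * PowerSeries.X)
        * PowerSeries.rescale (Polynomial.X : Polynomial ℤ) (Bs n k)
      = PowerSeries.rescale (Polynomial.X : Polynomial ℤ) (Bs n k)
        + PowerSeries.C ((Polynomial.X : Polynomial ℤ) ^ (k + 1)) * (PowerSeries.X
          * PowerSeries.rescale (Polynomial.X : Polynomial ℤ) (Bs n k))
        - PowerSeries.C (Polynomial.X ^ (n + 1)) *
          (PowerSeries.X * PowerSeries.rescale (Polynomial.X : Polynomial ℤ) (Bs n k))
        - PowerSeries.X ^ 2 * (PowerSeries.C ((Polynomial.X : Polynomial ℤ) ^ (k + 1))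
          * PowerSeries.C (Polynomial.X ^ (n + 1))
            * PowerSeries.rescale (Polynomial.X : Polynomial ℤ) (Bs n k)) := by
    ring
  have e2 : (1 + PowerSeries.C ((Polynomial.X : Polynomial ℤ) ^ (n - k)) * PowerSeries.X)
        * ((1 - PowerSeries.X) * Bs n k)
      = Bs n k - PowerSeries.X * Bs n k + PowerSeries.C ((Polynomial.X : Polynomial ℤ) ^ (n - k))
        * (PowerSeries.X * Bs n k) - PowerSeries.X ^ 2 *
          (PowerSeries.C ((Polynomial.X : Polynomial ℤ) ^ (n - k)) * Bs n k) := by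
    ring
  have z0 := Bs_zero n k
  rw [e1, e2] at h
  simp only [map_sub, map_add, PowerSeries.coeff_C_mul] at h
  rw [PowerSeries.coeff_X_pow_mul', PowerSeries.coeff_X_pow_mul', if_neg (by norm_num),
    if_neg (by norm_num), show (1 : ℕ) = 0 + 1 from rfl, PowerSeries.coeff_succ_X_mul,
    PowerSeries.coeff_succ_X_mul, PowerSeries.coeff_rescale,
    PowerSeries.coeff_rescale, z0] at h
  obtain ⟨d, hd⟩ : ∃ d, n + 1 = k + 1 + d ∧ n - k = d := ⟨n - k, by omega, rfl⟩
  rw [hd.1, hd.2] at h
  rw [hd.2]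
  simp only [zero_add, pow_zero, pow_one, mul_one, sub_zero, pow_add] at h ⊢
  linear_combination -h

/-- the recursion for the basis coefficients. -/
theorem Bs_two {n k : ℕ} (hk : 2 * k + 1 ≤ n) (m : ℕ) :
    (1 - Polynomial.X ^ (m + 2)) * PowerSeries.coeff (m + 2) (Bs n k)
      = (1 + Polynomial.X ^ (k + m + 2)) * (1 - Polynomial.X ^ (n - k))
          * PowerSeries.coeff (m + 1) (Bs n k)
        + Polynomial.X ^ (n - k) * (1 - Polynomial.X ^ (2 * k + m + 2))
          * PowerSeries.coeff m (Bs n k) := by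
  have h := congrArg (PowerSeries.coeff (m + 2)) (Bs_shift hk)
  have e1 : (1 + PowerSeries.C ((Polynomial.X : Polynomial ℤ) ^ (k + 1)) * PowerSeries.X)
      * (1 - PowerSeries.C (Polynomial.X ^ (n + 1)) * PowerSeries.X)
        * PowerSeries.rescale (Polynomial.X : Polynomial ℤ) (Bs n k)
      = PowerSeries.rescale (Polynomial.X : Polynomial ℤ) (Bs n k)
        + PowerSeries.C ((Polynomial.X : Polynomial ℤ) ^ (k + 1)) * (PowerSeries.X
          * PowerSeries.rescale (Polynomial.X : Polynomial ℤ) (Bs n k))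
        - PowerSeries.C (Polynomial.X ^ (n + 1)) *
          (PowerSeries.X * PowerSeries.rescale (Polynomial.X : Polynomial ℤ) (Bs n k))
        - PowerSeries.C (Polynomial.X ^ (k + 1) * Polynomial.X ^ (n + 1))
            * (PowerSeries.X * (PowerSeries.X *
              PowerSeries.rescale (Polynomial.X : Polynomial ℤ) (Bs n k))) := by
    rw [map_mul]
    ring
  have e2 : (1 + PowerSeries.C ((Polynomial.X : Polynomial ℤ) ^ (n - k)) * PowerSeries.X)
        * ((1 - PowerSeries.X) * Bs n k)
      = Bs n k - PowerSeries.X * Bs n k + PowerSeries.C ((Polynomial.X : Polynomial ℤ) ^ (n - k))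
        * (PowerSeries.X * Bs n k) -
          PowerSeries.C ((Polynomial.X : Polynomial ℤ) ^ (n - k))
            * (PowerSeries.X * (PowerSeries.X * Bs n k)) := by
    ring
  rw [e1, e2] at h
  simp only [map_sub, map_add, PowerSeries.coeff_C_mul] at h
  rw [show m + 2 = (m + 1) + 1 from rfl, PowerSeries.coeff_succ_X_mul,
    PowerSeries.coeff_succ_X_mul, PowerSeries.coeff_succ_X_mul, PowerSeries.coeff_succ_X_mul,
    PowerSeries.coeff_succ_X_mul, PowerSeries.coeff_succ_X_mul, PowerSeries.coeff_rescale,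
    PowerSeries.coeff_rescale, PowerSeries.coeff_rescale] at h
  rw [show m + 2 = (m + 1) + 1 from rfl]
  obtain ⟨d, hd⟩ : ∃ d, n + 1 = k + 1 + d ∧ n - k = d := ⟨n - k, by omega, rfl⟩
  rw [hd.1, hd.2] at h
  rw [hd.2]
  have e3 : k + m + 2 = k + (m + 1 + 1) := by omega
  have e4 : 2 * k + m + 2 = k + k + (m + 1 + 1) := by omega
  rw [e3, e4]
  simp only [pow_add, pow_one] at h ⊢
  linear_combination -h
theorem X_ne : (Polynomial.X : Polynomial ℤ) ≠ 0 := Polynomial.X_ne_zero

theorem one_sub_ne (m : ℕ) : (1 - Polynomial.X ^ (m + 1) : Polynomial ℤ) ≠ 0 := by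
  intro h
  have := congrArg (Polynomial.eval 0) h
  simp at this

end Pool.Agent.H45.K3
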