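import Pool.Agent.H45.K5.Num

set_option autoImplicit false
set_option maxRecDepth 100000

/-!
# Positivity certificate number 1
-/

namespace Pool.Agent.H45.K5

open Pool.Agent.H45.K3

def ct1_0 : List (List ℤ) × List (ℕ × ℕ) :=
([[], [], [], [], [0, 0, 1]], [])

/-- the certificate -/
def ct1 : List (List (List ℤ) × List (ℕ × ℕ)) :=
[ct1_0]

theorem ct1_chk : chk QQ (tsC N1 ct1) = true := by decide +kernel

theorem ct1_nn : nnC 1 ct1 = true := by decide +kernel

theorem PS_N1 : PS (evS N1 * invF (D0 1)) := pos ct1_chk ct1_nn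

end Pool.Agent.H45.K5
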