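import Pool.Agent.H45.K5.Num

set_option autoImplicit false
set_option maxRecDepth 100000

/-!
# Positivity certificate number 2
-/

namespace Pool.Agent.H45.K5

open Pool.Agent.H45.K3

def ct2_0 : List (List ℤ) × List (ℕ × ℕ) :=
([[], [], [], [], [], [], [], [], [0, 0, 0, 0, 0, 0, 0, 0, 1]], [])

def ct2_1 : List (List ℤ) × List (ℕ × ℕ) :=
([[], [], [], [], [], [0, 0, 0, 0, 1, 0, 1], [], [0, 0, 0, 0, 0, 0, 1, 0, 1]], [(2, 2)])

/-- the certificate -/
def ct2 : List (List (List ℤ) × List (ℕ × ℕ)) :=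
[ct2_0, ct2_1]

theorem ct2_chk : chk QQ (tsC N2 ct2) = true := by decide +kernel

theorem ct2_nn : nnC 2 ct2 = true := by decide +kernel

theorem PS_N2 : PS (evS N2 * invF (D0 2)) := pos ct2_chk ct2_nn

end Pool.Agent.H45.K5
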