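import Pool.Agent.H45.K5.Num

set_option autoImplicit false
set_option maxRecDepth 100000

/-!
# Positivity certificate number 3
-/

namespace Pool.Agent.H45.K5

open Pool.Agent.H45.K3

def ct3_0 : List (List ℤ) × List (ℕ × ℕ) :=
([[], [], [], [], [], [], [], [], [0, 0, 0, 0, 0, 0, 0, 0, 1]], [])

def ct3_1 : List (List ℤ) × List (ℕ × ℕ) :=
([[], [], [], [], [], [], [], [], [], [], [], [], [], [], [0, 0, 0, 0, 0, 0, 0, 0, 0, 0, 0, 0, 0,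
  0, 0, 0, 0, 0, 0, 0, 1, 0, 1]], [(2, 1)])

def ct3_2 : List (List ℤ) × List (ℕ × ℕ) :=
([[], [], [], [], [], [], [], [], [0, 0, 0, 0, 0, 0, 0, 0, 0, 1, 1, 2, 0, 1, 1]], [(2, 1), (2,
  3)])

def ct3_3 : List (List ℤ) × List (ℕ × ℕ) :=
([[], [], [], [], [], [], [], [], [0, 0, 0, 0, 0, 0, 0, 0, 0, 0, 0, 0, 2, 1, 2, 1, 1], [], [0, 0,
  0, 0, 0, 0, 0, 0, 0, 0, 0, 0, 0, 0, 0, 0, 1]], [(2, 1), (2, 3), (2, 4)])

def ct3_4 : List (List ℤ) × List (ℕ × ℕ) :=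
([[], [], [], [], [], [], [], [], [0, 0, 0, 0, 0, 0, 0, 0, 0, 0, 1, 0, 1]], [(2, 1), (2, 4)])

def ct3_5 : List (List ℤ) × List (ℕ × ℕ) :=
([[], [], [], [], [], [], [], [], [], [], [], [], [], [], [0, 0, 0, 0, 0, 0, 0, 0, 0, 0, 0, 0, 0,
  0, 0, 0, 0, 0, 0, 0, 0, 0, 1, 0, 1]], [(2, 3)])

def ct3_6 : List (List ℤ) × List (ℕ × ℕ) :=
([[], [], [], [], [], [], [], [], [0, 0, 0, 0, 0, 0, 0, 0, 0, 0, 1, 0, 1]], [(2, 3), (2, 4)])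

def ct3_7 : List (List ℤ) × List (ℕ × ℕ) :=
([[], [], [], [], [], [], [], [], [], [0, 0, 0, 0, 0, 0, 0, 0, 0, 0, 0, 1, 1, 1, 1, 1, 1], [], [0,
  0, 0, 0, 0, 0, 0, 0, 0, 0, 0, 0, 0, 0, 1, 1, 1, 1, 1, 1]], [(2, 3), (2, 3)])

/-- the certificate -/
def ct3 : List (List (List ℤ) × List (ℕ × ℕ)) :=
[ct3_0, ct3_1, ct3_2, ct3_3, ct3_4, ct3_5, ct3_6, ct3_7]

theorem ct3_chk : chk QQ (tsC N3 ct3) = true := by decide +kernel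

theorem ct3_nn : nnC 3 ct3 = true := by decide +kernel

theorem PS_N3 : PS (evS N3 * invF (D0 3)) := pos ct3_chk ct3_nn

end Pool.Agent.H45.K5
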