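import Pool.Agent.H45.K5.Num

set_option autoImplicit false
set_option maxRecDepth 100000

/-!
# Positivity certificate number 4
-/

namespace Pool.Agent.H45.K5

open Pool.Agent.H45.K3

def ct4_0 : List (List ℤ) × List (ℕ × ℕ) :=
([[], [], [], [], [], [], [], [], [], [], [0, 0, 0, 0, 0, 0, 0, 0, 0, 0, 0, 0, 0, 0, 0, 1]], [])

def ct4_1 : List (List ℤ) × List (ℕ × ℕ) :=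
([[], [], [], [], [], [], [], [], [], [], [], [], [], [], [], [], [0, 0, 0, 0, 0, 0, 0, 0, 0, 0,
  0, 0, 0, 0, 0, 0, 0, 0, 0, 0, 0, 0, 0, 0, 0, 1, 1]], [(2, 2)])

def ct4_2 : List (List ℤ) × List (ℕ × ℕ) :=
([[], [], [], [], [], [], [], [], [], [], [0, 0, 0, 0, 0, 0, 0, 0, 0, 0, 0, 0, 0, 0, 0, 0, 0, 2,
  0, 1, 0, 1, 0, 0, 0, 1], [], [], [], [], [], [0, 0, 0, 0, 0, 0, 0, 0, 0, 0, 0, 0, 0, 0, 0, 0, 0,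
  0, 0, 0, 0, 0, 0, 0, 0, 0, 0, 1, 0, 3, 1, 1, 0, 2, 1, 1, 0, 1]], [(2, 2), (2, 3)])

def ct4_3 : List (List ℤ) × List (ℕ × ℕ) :=
([[], [], [], [], [], [], [], [], [], [], [0, 0, 0, 0, 0, 0, 0, 0, 0, 0, 0, 0, 0, 0, 0, 0, 0, 0,
  1, 1, 4, 2, 2, 0, 2], [], [0, 0, 0, 0, 0, 0, 0, 0, 0, 0, 0, 0, 0, 0, 0, 0, 0, 0, 0, 0, 0, 0, 0,
  0, 0, 0, 0, 0, 0, 1], [], [], [], [0, 0, 0, 0, 0, 0, 0, 0, 0, 0, 0, 0, 0, 0, 0, 0, 0, 0, 0, 0,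
  0, 0, 0, 0, 0, 0, 0, 0, 0, 0, 0, 0, 0, 0, 1, 2, 0, 1, 1, 2], [], [0, 0, 0, 0, 0, 0, 0, 0, 0, 0,
  0, 0, 0, 0, 0, 0, 0, 0, 0, 0, 0, 0, 0, 0, 0, 0, 0, 0, 0, 0, 0, 0, 1, 1, 1, 1, 3, 3, 2, 2, 2, 2,
  2, 1, 1]], [(2, 2), (2, 3), (2, 5)])

def ct4_4 : List (List ℤ) × List (ℕ × ℕ) :=
([[], [], [], [], [], [], [], [], [], [], [], [], [0, 0, 0, 0, 0, 0, 0, 0, 0, 0, 0, 0, 0, 0, 0, 0,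
  0, 0, 1, 3, 6, 5, 9, 10, 12, 10, 8, 6, 4, 3, 1]], [(2, 2), (2, 3), (2, 5), (2, 6)])

def ct4_5 : List (List ℤ) × List (ℕ × ℕ) :=
([[], [], [], [], [], [], [], [], [], [], [0, 0, 0, 0, 0, 0, 0, 0, 0, 0, 0, 0, 0, 0, 0, 0, 0, 0,
  0, 0, 0, 0, 0, 1], [], [], [], [], [], [0, 0, 0, 0, 0, 0, 0, 0, 0, 0, 0, 0, 0, 0, 0, 0, 0, 0, 0,
  0, 0, 0, 0, 0, 0, 0, 0, 0, 0, 0, 0, 0, 0, 0, 0, 0, 0, 0, 0, 1], [], [0, 0, 0, 0, 0, 0, 0, 0, 0,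
  0, 0, 0, 0, 0, 0, 0, 0, 0, 0, 0, 0, 0, 0, 0, 0, 0, 0, 0, 0, 0, 0, 0, 0, 1, 0, 0, 0, 1]], [(2,
  2), (2, 3), (2, 6)])

def ct4_6 : List (List ℤ) × List (ℕ × ℕ) :=
([[], [], [], [], [], [], [], [], [], [], [], [], [], [], [], [], [0, 0, 0, 0, 0, 0, 0, 0, 0, 0,
  0, 0, 0, 0, 0, 0, 0, 0, 0, 0, 0, 0, 0, 0, 0, 0, 1, 0, 0, 0, 1]], [(2, 2), (2, 5)])

def ct4_7 : List (List ℤ) × List (ℕ × ℕ) :=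
([[], [], [], [], [], [], [], [], [], [], [0, 0, 0, 0, 0, 0, 0, 0, 0, 0, 0, 0, 0, 0, 0, 0, 0, 0,
  1, 0, 0, 0, 0, 1], [], [], [], [], [], [0, 0, 0, 0, 0, 0, 0, 0, 0, 0, 0, 0, 0, 0, 0, 0, 0, 0, 0,
  0, 0, 0, 0, 0, 0, 0, 0, 0, 0, 0, 1, 1], [], [0, 0, 0, 0, 0, 0, 0, 0, 0, 0, 0, 0, 0, 0, 0, 0, 0,
  0, 0, 0, 0, 0, 0, 0, 0, 0, 0, 0, 0, 0, 0, 0, 1]], [(2, 2), (2, 5), (2, 6)])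

def ct4_8 : List (List ℤ) × List (ℕ × ℕ) :=
([[], [], [], [], [], [], [], [], [], [], [0, 0, 0, 0, 0, 0, 0, 0, 0, 0, 0, 0, 0, 0, 0, 0, 1], [],
  [], [], [], [], [0, 0, 0, 0, 0, 0, 0, 0, 0, 0, 0, 0, 0, 0, 0, 0, 0, 0, 0, 0, 0, 0, 0, 0, 0, 0,
  1]], [(2, 3)])

def ct4_9 : List (List ℤ) × List (ℕ × ℕ) :=
([[], [], [], [], [], [], [], [], [], [], [], [], [], [], [], [], [0, 0, 0, 0, 0, 0, 0, 0, 0, 0,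
  0, 0, 0, 0, 0, 0, 0, 0, 0, 0, 0, 0, 0, 0, 0, 0, 0, 0, 0, 1, 0, 1, 0, 0, 0, 1, 2]], [(2, 3), (2,
  5)])

def ct4_10 : List (List ℤ) × List (ℕ × ℕ) :=
([[], [], [], [], [], [], [], [], [], [], [], [], [], [], [], [], [0, 0, 0, 0, 0, 0, 0, 0, 0, 0,
  0, 0, 0, 0, 0, 0, 0, 0, 0, 0, 0, 0, 0, 0, 0, 0, 0, 0, 0, 0, 0, 0, 0, 0, 0, 0, 0, 1, 1], [], [0,
  0, 0, 0, 0, 0, 0, 0, 0, 0, 0, 0, 0, 0, 0, 0, 0, 0, 0, 0, 0, 0, 0, 0, 0, 0, 0, 0, 0, 0, 0, 0, 0,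
  0, 1, 1, 1]], [(2, 3), (2, 5), (2, 6)])

def ct4_11 : List (List ℤ) × List (ℕ × ℕ) :=
([[], [], [], [], [], [], [], [], [], [], [0, 0, 0, 0, 0, 0, 0, 0, 0, 0, 0, 0, 0, 0, 0, 0, 1]],
  [(2, 5)])

def ct4_12 : List (List ℤ) × List (ℕ × ℕ) :=
([[], [], [], [], [], [], [], [], [], [], [0, 0, 0, 0, 0, 0, 0, 0, 0, 0, 0, 0, 0, 0, 0, 0, 0, 0,
  0, 1]], [(2, 5), (2, 6)])

def ct4_13 : List (List ℤ) × List (ℕ × ℕ) :=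
([[], [], [], [], [], [], [], [], [], [0, 0, 0, 0, 0, 0, 0, 0, 0, 0, 0, 0, 0, 0, 1, 0, 3, 0, 2, 1,
  1], [], [], [], [], [], [], [], [], [], [], [], [], [], [0, 0, 0, 0, 0, 0, 0, 0, 0, 0, 0, 0, 0,
  0, 0, 0, 0, 0, 0, 0, 0, 0, 0, 0, 0, 0, 0, 0, 0, 0, 0, 0, 0, 0, 0, 0, 0, 0, 0, 0, 0, 0, 0, 0, 0,
  0, 0, 0, 1]], [(2, 2), (2, 3), (2, 4)])

def ct4_14 : List (List ℤ) × List (ℕ × ℕ) :=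
([[], [], [], [], [], [], [], [], [], [], [], [0, 0, 0, 0, 0, 0, 0, 0, 0, 0, 0, 0, 0, 0, 0, 0, 0,
  3, 0, 3, 0, 2, 0, 2, 0, 0, 0, 1], [], [], [], [0, 0, 0, 0, 0, 0, 0, 0, 0, 0, 0, 0, 0, 0, 0, 0,
  0, 0, 0, 0, 0, 0, 0, 0, 0, 1, 1, 2, 3, 0, 3, 0, 2, 1, 2, 2, 2, 2, 2, 1, 1], [], [0, 0, 0, 0, 0,
  0, 0, 0, 0, 0, 0, 0, 0, 0, 0, 0, 0, 0, 0, 0, 0, 0, 0, 0, 0, 0, 0, 0, 0, 0, 0, 0, 0, 0, 0, 0, 0,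
  1, 2, 0, 1, 0, 1]], [(2, 2), (2, 3), (2, 4), (2, 5)])

def ct4_15 : List (List ℤ) × List (ℕ × ℕ) :=
([[], [], [], [], [], [], [], [], [], [0, 0, 0, 0, 0, 0, 0, 0, 0, 0, 0, 0, 0, 0, 0, 0, 0, 0, 0, 0,
  0, 0, 2, 0, 1], [], [0, 0, 0, 0, 0, 0, 0, 0, 0, 0, 0, 0, 0, 0, 1, 1, 3, 1, 9, 6, 12, 8, 14, 8,
  12, 9, 9, 5, 4, 1, 1], [], [], [], [], [], [0, 0, 0, 0, 0, 0, 0, 0, 0, 0, 0, 0, 0, 0, 0, 0, 0,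
  0, 0, 0, 0, 0, 0, 0, 0, 0, 0, 0, 0, 0, 0, 0, 0, 0, 0, 1]], [(2, 2), (2, 3), (2, 4), (2, 5), (2,
  6)])

def ct4_16 : List (List ℤ) × List (ℕ × ℕ) :=
([[], [], [], [], [], [], [], [], [], [], [], [], [], [], [], [0, 0, 0, 0, 0, 0, 0, 0, 0, 0, 0, 0,
  0, 0, 0, 0, 0, 0, 0, 0, 0, 0, 0, 0, 0, 0, 0, 0, 1, 1, 2, 0, 1]], [(2, 2), (2, 3), (2, 4), (2,
  6)])

def ct4_17 : List (List ℤ) × List (ℕ × ℕ) :=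
([[], [], [], [], [], [], [], [], [], [0, 0, 0, 0, 0, 0, 0, 0, 0, 0, 0, 0, 0, 0, 1]], [(2, 2), (2,
  3), (2, 5)])

def ct4_18 : List (List ℤ) × List (ℕ × ℕ) :=
([[], [], [], [], [], [], [], [], [], [], [], [], [], [], [], [0, 0, 0, 0, 0, 0, 0, 0, 0, 0, 0, 0,
  0, 0, 0, 0, 0, 0, 0, 0, 0, 0, 0, 1, 1], [], [0, 0, 0, 0, 0, 0, 0, 0, 0, 0, 0, 0, 0, 0, 0, 0, 0,
  0, 0, 0, 0, 0, 0, 0, 0, 0, 1]], [(2, 2), (2, 3), (2, 5), (2, 6)])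

def ct4_19 : List (List ℤ) × List (ℕ × ℕ) :=
([[], [], [], [], [], [], [], [], [], [0, 0, 0, 0, 0, 0, 0, 0, 0, 0, 0, 0, 1]], [(2, 2), (2, 3),
  (2, 6)])

def ct4_20 : List (List ℤ) × List (ℕ × ℕ) :=
([[], [], [], [], [], [], [], [], [], [0, 0, 0, 0, 0, 0, 0, 0, 0, 0, 0, 0, 0, 0, 0, 0, 0, 0, 0, 0,
  1], [], [], [], [], [], [0, 0, 0, 0, 0, 0, 0, 0, 0, 0, 0, 0, 0, 0, 0, 0, 0, 0, 0, 0, 0, 0, 1, 2,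
  1, 2, 1, 0, 1, 1, 1, 2, 1], [], [0, 0, 0, 0, 0, 0, 0, 0, 0, 0, 0, 0, 0, 0, 0, 0, 0, 0, 0, 0, 0,
  0, 0, 0, 0, 0, 0, 1, 1, 2, 2, 1, 0, 1], [], [0, 0, 0, 0, 0, 0, 0, 0, 0, 0, 0, 0, 0, 0, 0, 0, 0,
  0, 0, 0, 0, 0, 0, 0, 0, 0, 0, 0, 0, 0, 0, 0, 0, 0, 1]], [(2, 2), (2, 4), (2, 5), (2, 6)])

def ct4_21 : List (List ℤ) × List (ℕ × ℕ) :=
([[], [], [], [], [], [], [], [], [], [], [], [], [], [], [], [0, 0, 0, 0, 0, 0, 0, 0, 0, 0, 0, 0,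
  0, 0, 0, 0, 0, 0, 0, 0, 0, 1]], [(2, 2), (2, 5), (2, 6)])

def ct4_22 : List (List ℤ) × List (ℕ × ℕ) :=
([[], [], [], [], [], [], [], [], [], [0, 0, 0, 0, 0, 0, 0, 0, 0, 0, 0, 0, 0, 0, 0, 1, 0, 1]],
  [(2, 3), (2, 4), (2, 5)])

def ct4_23 : List (List ℤ) × List (ℕ × ℕ) :=
([[], [], [], [], [], [], [], [], [], [], [], [], [], [], [], [0, 0, 0, 0, 0, 0, 0, 0, 0, 0, 0, 0,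
  0, 0, 0, 0, 0, 0, 0, 0, 0, 0, 0, 0, 0, 1, 1, 1, 3, 2, 1, 2, 2], [], [0, 0, 0, 0, 0, 0, 0, 0, 0,
  0, 0, 0, 0, 0, 0, 0, 0, 0, 0, 0, 0, 0, 0, 0, 0, 0, 0, 0, 0, 0, 0, 1], [], [0, 0, 0, 0, 0, 0, 0,
  0, 0, 0, 0, 0, 0, 0, 0, 0, 0, 0, 0, 0, 0, 0, 0, 0, 0, 0, 0, 0, 0, 0, 0, 0, 0, 0, 1], [], [0, 0,
  0, 0, 0, 0, 0, 0, 0, 0, 0, 0, 0, 0, 0, 0, 0, 0, 0, 0, 0, 0, 0, 0, 0, 0, 0, 0, 0, 0, 0, 0, 0, 0,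
  0, 0, 0, 0, 0, 1]], [(2, 3), (2, 4), (2, 5), (2, 6)])

def ct4_24 : List (List ℤ) × List (ℕ × ℕ) :=
([[], [], [], [], [], [], [], [], [], [], [], [], [], [], [], [0, 0, 0, 0, 0, 0, 0, 0, 0, 0, 0, 0,
  0, 0, 0, 0, 0, 0, 0, 0, 0, 0, 1]], [(2, 3), (2, 5), (2, 6)])

def ct4_25 : List (List ℤ) × List (ℕ × ℕ) :=
([[], [], [], [], [], [], [], [], [], [0, 0, 0, 0, 0, 0, 0, 0, 0, 0, 0, 0, 0, 0, 0, 0, 0, 0, 2, 0,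
  1, 1], [], [], [], [], [], [0, 0, 0, 0, 0, 0, 0, 0, 0, 0, 0, 0, 0, 0, 0, 0, 0, 0, 0, 0, 1, 0, 1,
  0, 1, 1], [], [], [], [0, 0, 0, 0, 0, 0, 0, 0, 0, 0, 0, 0, 0, 0, 0, 0, 0, 0, 0, 0, 0, 0, 0, 0,
  0, 0, 0, 1]], [(2, 4), (2, 5), (2, 6)])

/-- the certificate -/
def ct4 : List (List (List ℤ) × List (ℕ × ℕ)) :=
[ct4_0, ct4_1, ct4_2, ct4_3, ct4_4, ct4_5, ct4_6, ct4_7, ct4_8, ct4_9, ct4_10, ct4_11, ct4_12,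
  ct4_13, ct4_14, ct4_15, ct4_16, ct4_17, ct4_18, ct4_19, ct4_20, ct4_21, ct4_22, ct4_23, ct4_24,
  ct4_25]

theorem ct4_chk : chk QQ (tsC N4 ct4) = true := by decide +kernel

theorem ct4_nn : nnC 4 ct4 = true := by decide +kernel

theorem PS_N4 : PS (evS N4 * invF (D0 4)) := pos ct4_chk ct4_nn

end Pool.Agent.H45.K5
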