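import Pool.Agent.H45.K3.Ser

set_option autoImplicit false

/-!
# A verified evaluator for polynomial identities in `z` and `q`

Polynomials in `q` are lists of integers, polynomials in `z` over `ℤ[q]` are lists of such lists.
An identity is tested at `q = Q` for one large integer `Q` (the coefficients are bounded).
-/

namespace Pool.Agent.H45.K5

open PowerSeries Pool.H56.Inv Pool.Agent.H45.K3

/-- the polynomial of a list. -/
noncomputable def evQ : List ℤ → Polynomial ℤ
  | [] => 0
  | a :: l => Polynomial.C a + Polynomial.X * evQ l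

/-- the value of a list at an integer. -/
def evI (Q : ℤ) : List ℤ → ℤ
  | [] => 0
  | a :: l => a + Q * evI Q l

/-- the series of a list of lists. -/
noncomputable def evS : List (List ℤ) → PowerSeries (Polynomial ℤ)
  | [] => 0
  | l :: L => C (evQ l) + X * evS L

/-- the series of a list of integers. -/
noncomputable def evZ : List ℤ → PowerSeries ℤ
  | [] => 0
  | a :: A => C a + X * evZ A

theorem eval_evQ (Q : ℤ) (l : List ℤ) : Polynomial.eval Q (evQ l) = evI Q l := by
  induction l with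
  | nil => simp [evQ, evI]
  | cons a l ih => simp [evQ, evI, ih]

/-- evaluation at `q = Q`. -/
noncomputable def psi (Q : ℤ) : PowerSeries (Polynomial ℤ) →+* PowerSeries ℤ :=
  PowerSeries.map (Polynomial.evalRingHom Q)

theorem psi_C (Q : ℤ) (p : Polynomial ℤ) : psi Q (C p) = C (Polynomial.eval Q p) := by
  unfold psi
  rw [PowerSeries.map_C]
  rfl

theorem psi_X (Q : ℤ) : psi Q X = X := by
  unfold psi
  rw [PowerSeries.map_X]

theorem coeff_psi (Q : ℤ) (E : PowerSeries (Polynomial ℤ)) (m : ℕ) :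
    coeff m (psi Q E) = Polynomial.eval Q (coeff m E) := by
  unfold psi
  rw [PowerSeries.coeff_map]
  rfl

theorem psi_evS (Q : ℤ) (L : List (List ℤ)) : psi Q (evS L) = evZ (L.map (evI Q)) := by
  induction L with
  | nil => simp [evS, evZ]
  | cons l L ih => rw [evS, List.map_cons, evZ, map_add, map_mul, psi_C, psi_X, ih, eval_evQ]

/-! ### operations on lists of integers -/

def addZ : List ℤ → List ℤ → List ℤ
  | [], B => B
  | A, [] => A
  | a :: A, b :: B => (a + b) :: addZ A B

theorem evZ_addZ : ∀ A B : List ℤ, evZ (addZ A B) = evZ A + evZ B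
  | [], B => by simp [addZ, evZ]
  | a :: A, [] => by simp [addZ, evZ]
  | a :: A, b :: B => by
      rw [addZ, evZ, evZ, evZ, evZ_addZ A B, map_add]
      ring

def scZ (c : ℤ) (A : List ℤ) : List ℤ := A.map (fun a => c * a)

theorem evZ_scZ (c : ℤ) (A : List ℤ) : evZ (scZ c A) = C c * evZ A := by
  unfold scZ
  induction A with
  | nil => simp [evZ]
  | cons a A ih => rw [List.map_cons, evZ, evZ, ih, map_mul]; ring

def shZ : ℕ → List ℤ → List ℤ
  | 0, A => A
  | d + 1, A => 0 :: shZ d A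

theorem evZ_shZ (d : ℕ) (A : List ℤ) : evZ (shZ d A) = X ^ d * evZ A := by
  induction d with
  | zero => simp [shZ]
  | succ d ih => rw [shZ, evZ, ih, map_zero, zero_add, pow_succ]; ring

/-- multiplication by `1 - c X^d`. -/
def mulF (c : ℤ) (d : ℕ) (A : List ℤ) : List ℤ := addZ A (shZ d (scZ (-c) A))

theorem evZ_mulF (c : ℤ) (d : ℕ) (A : List ℤ) :
    evZ (mulF c d A) = evZ A * (1 - C c * X ^ d) := by
  unfold mulF
  rw [evZ_addZ, evZ_shZ, evZ_scZ, map_neg]
  ring

def mulFs (Q : ℤ) (fs : List (ℕ × ℕ)) (A : List ℤ) : List ℤ :=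
  fs.foldr (fun f B => mulF (Q ^ f.2) f.1 B) A

/-- `∏ (1 - q^e z^d)` over the list of the `(d, e)`. -/
noncomputable def prodF (fs : List (ℕ × ℕ)) : PowerSeries (Polynomial ℤ) :=
  (fs.map fun f => 1 - C (Polynomial.X ^ f.2) * X ^ f.1).prod

theorem prodF_nil : prodF [] = 1 := by simp [prodF]

theorem prodF_cons (f : ℕ × ℕ) (fs : List (ℕ × ℕ)) :
    prodF (f :: fs) = (1 - C (Polynomial.X ^ f.2) * X ^ f.1) * prodF fs := by
  simp [prodF]

theorem evZ_mulFs (Q : ℤ) (fs : List (ℕ × ℕ)) (A : List ℤ) :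
    evZ (mulFs Q fs A) = evZ A * psi Q (prodF fs) := by
  induction fs with
  | nil => simp [mulFs, prodF_nil]
  | cons f fs ih =>
    have h : mulFs Q (f :: fs) A = mulF (Q ^ f.2) f.1 (mulFs Q fs A) := rfl
    rw [h, evZ_mulF, ih, prodF_cons, map_mul, map_sub, map_one, map_mul, psi_C, map_pow (psi Q),
      psi_X, Polynomial.eval_pow, Polynomial.eval_X]
    ring

/-- the `i`-th entry times `p c^i`. -/
def sgZ (c : ℤ) : ℤ → List ℤ → List ℤ
  | _, [] => []
  | p, a :: A => (p * a) :: sgZ c (p * c) A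

theorem evZ_sgZ (c : ℤ) : ∀ (p : ℤ) (A : List ℤ), evZ (sgZ c p A) = C p * rescale c (evZ A)
  | p, [] => by simp [sgZ, evZ]
  | p, a :: A => by
      rw [sgZ, evZ, evZ, evZ_sgZ c (p * c) A, map_add, map_mul (rescale c),
        PowerSeries.rescale_X, map_mul, map_mul]
      have : rescale c (C a) = (C a : PowerSeries ℤ) := by
        ext n : 1
        rw [coeff_rescale, coeff_C]
        split_ifs with h
        · rw [h, pow_zero, one_mul]
        · rw [mul_zero]
      rw [this]
      ring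

/-- the substitution `z ↦ q^s z`. -/
noncomputable def sgS (s : ℕ) : PowerSeries (Polynomial ℤ) →+* PowerSeries (Polynomial ℤ) :=
  rescale ((Polynomial.X : Polynomial ℤ) ^ s)

theorem psi_sgS (Q : ℤ) (s : ℕ) (E : PowerSeries (Polynomial ℤ)) :
    psi Q (sgS s E) = rescale (Q ^ s) (psi Q E) := by
  ext m : 1
  rw [coeff_psi, coeff_rescale, coeff_psi]
  unfold sgS
  rw [coeff_rescale, Polynomial.eval_mul, Polynomial.eval_pow, Polynomial.eval_pow,
    Polynomial.eval_X]

/-! ### norms -/

/-- the sum of the absolute values of the coefficients is at most `M`. -/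
def Bd (M : ℕ) (E : PowerSeries (Polynomial ℤ)) : Prop :=
  ∀ F : Finset (ℕ × ℕ), ∑ p ∈ F, |(coeff p.1 E).coeff p.2| ≤ (M : ℤ)

theorem Bd.zero : Bd 0 0 := by
  intro F
  simp

theorem Bd.mono {M M' : ℕ} {E : PowerSeries (Polynomial ℤ)} (h : Bd M E) (hM : M ≤ M') :
    Bd M' E := fun F => (h F).trans (by exact_mod_cast hM)

theorem Bd.add {M M' : ℕ} {E E' : PowerSeries (Polynomial ℤ)} (h : Bd M E) (h' : Bd M' E') :
    Bd (M + M') (E + E') := by
  intro F
  calc ∑ p ∈ F, |(coeff p.1 (E + E')).coeff p.2|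
      ≤ ∑ p ∈ F, (|(coeff p.1 E).coeff p.2| + |(coeff p.1 E').coeff p.2|) := by
        apply Finset.sum_le_sum
        intro p _
        rw [map_add, Polynomial.coeff_add]
        exact abs_add_le _ _
    _ ≤ _ := by
        rw [Finset.sum_add_distrib]
        push_cast
        exact add_le_add (h F) (h' F)

theorem Bd.neg {M : ℕ} {E : PowerSeries (Polynomial ℤ)} (h : Bd M E) : Bd M (-E) := by
  intro F
  have := h F
  simpa using this

theorem Bd.smul {M : ℕ} {E : PowerSeries (Polynomial ℤ)} (a : ℤ) (h : Bd M E) :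
    Bd (a.natAbs * M) (C (Polynomial.C a) * E) := by
  intro F
  have e : ∀ p : ℕ × ℕ, |(coeff p.1 (C (Polynomial.C a) * E)).coeff p.2|
      = |a| * |(coeff p.1 E).coeff p.2| := by
    intro p
    rw [coeff_C_mul, Polynomial.coeff_C_mul, abs_mul]
  rw [Finset.sum_congr rfl fun p _ => e p, ← Finset.mul_sum]
  push_cast
  exact mul_le_mul_of_nonneg_left (h F) (abs_nonneg a)

theorem Bd.shift {M : ℕ} {E : PowerSeries (Polynomial ℤ)} (d e : ℕ) (h : Bd M E) :
    Bd M (C (Polynomial.X ^ e) * X ^ d * E) := by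
  intro F
  have e1 : ∀ p : ℕ × ℕ, |(coeff p.1 (C (Polynomial.X ^ e) * X ^ d * E)).coeff p.2|
      = if d ≤ p.1 ∧ e ≤ p.2 then |(coeff (p.1 - d) E).coeff (p.2 - e)| else 0 := by
    intro p
    rw [mul_assoc, coeff_C_mul, coeff_X_pow_mul']
    split_ifs with h1 h2 h2
    · rw [Polynomial.coeff_X_pow_mul', if_pos h2.2]
    · rw [Polynomial.coeff_X_pow_mul', if_neg (fun h3 => h2 ⟨h1, h3⟩), abs_zero]
    · exact absurd h2.1 h1
    · rw [mul_zero, Polynomial.coeff_zero, abs_zero]
  rw [Finset.sum_congr rfl fun p _ => e1 p, ← Finset.sum_filter]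
  have h2 := h ((F.filter fun p => d ≤ p.1 ∧ e ≤ p.2).image fun p => (p.1 - d, p.2 - e))
  rw [Finset.sum_image] at h2
  · exact h2
  · intro p hp p' hp' heq
    simp only [Finset.coe_filter, Set.mem_ofPred_eq] at hp hp'
    simp only [Prod.mk.injEq] at heq
    ext
    · omega
    · omega

theorem Bd.rescale {M : ℕ} {E : PowerSeries (Polynomial ℤ)} (s : ℕ) (h : Bd M E) :
    Bd M (sgS s E) := by
  intro F
  have e1 : ∀ p : ℕ × ℕ, |(coeff p.1 (sgS s E)).coeff p.2|
      = if s * p.1 ≤ p.2 then |(coeff p.1 E).coeff (p.2 - s * p.1)| else 0 := by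
    intro p
    unfold sgS
    rw [coeff_rescale, ← pow_mul, Polynomial.coeff_X_pow_mul']
    split_ifs
    · rfl
    · rw [abs_zero]
  rw [Finset.sum_congr rfl fun p _ => e1 p, ← Finset.sum_filter]
  have h2 := h ((F.filter fun p => s * p.1 ≤ p.2).image fun p => (p.1, p.2 - s * p.1))
  rw [Finset.sum_image] at h2
  · exact h2
  · intro p hp p' hp' heq
    simp only [Finset.coe_filter, Set.mem_ofPred_eq] at hp hp'
    simp only [Prod.mk.injEq] at heq
    obtain ⟨h3, h4⟩ := heq
    have h5 : s * p.1 = s * p'.1 := by rw [h3]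
    ext
    · exact h3
    · omega

/-- the sum of the absolute values. -/
def l1 : List ℤ → ℕ
  | [] => 0
  | a :: l => a.natAbs + l1 l

def l1L : List (List ℤ) → ℕ
  | [] => 0
  | l :: L => l1 l + l1L L

theorem Bd.evQ {M : ℕ} {E : PowerSeries (Polynomial ℤ)} (h : Bd M E) (l : List ℤ) :
    Bd (l1 l * M) (C (evQ l) * E) := by
  induction l with
  | nil =>
    rw [K5.evQ, map_zero, zero_mul, l1, zero_mul]
    exact Bd.zero
  | cons a l ih =>
    have h1 := (h.smul a).add (ih.shift 0 1)
    rw [pow_zero, mul_one, pow_one] at h1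
    rw [K5.evQ, l1, add_mul, map_add, map_mul, add_mul, mul_assoc]
    exact h1

theorem Bd.one : Bd 1 1 := by
  intro F
  have e1 : ∀ p : ℕ × ℕ, |(coeff p.1 (1 : PowerSeries (Polynomial ℤ))).coeff p.2|
      = if p = (0, 0) then 1 else 0 := by
    intro p
    obtain ⟨a, b⟩ := p
    rw [coeff_one]
    simp only [Prod.mk.injEq]
    by_cases ha : a = 0
    · rw [if_pos ha, Polynomial.coeff_one]
      by_cases hb : b = 0
      · rw [if_pos hb, if_pos ⟨ha, hb⟩, abs_one]
      · rw [if_neg hb, if_neg (fun h => hb h.2), abs_zero]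
    · rw [if_neg ha, if_neg (fun h => ha h.1), Polynomial.coeff_zero, abs_zero]
  rw [Finset.sum_congr rfl fun p _ => e1 p, Finset.sum_ite_eq']
  split_ifs <;> norm_num

theorem Bd.evS (L : List (List ℤ)) : Bd (l1L L) (evS L) := by
  induction L with
  | nil =>
    rw [K5.evS, l1L]
    exact Bd.zero
  | cons l L ih =>
    have h1 := (Bd.one.evQ l).add (ih.shift 1 0)
    rw [pow_zero, map_one, one_mul, mul_one, mul_one, pow_one] at h1
    rw [K5.evS, l1L]
    exact h1

theorem Bd.prodF {M : ℕ} {E : PowerSeries (Polynomial ℤ)} (h : Bd M E) (fs : List (ℕ × ℕ)) :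
    Bd (2 ^ fs.length * M) (E * prodF fs) := by
  induction fs with
  | nil =>
    rw [prodF_nil, mul_one, List.length_nil, pow_zero, one_mul]
    exact h
  | cons f fs ih =>
    have h1 := ih.add (ih.shift f.1 f.2).neg
    rw [prodF_cons, List.length_cons]
    have e1 : E * ((1 - C (Polynomial.X ^ f.2) * X ^ f.1) * K5.prodF fs)
        = E * K5.prodF fs + -(C (Polynomial.X ^ f.2) * X ^ f.1 * (E * K5.prodF fs)) := by ring
    have e2 : 2 ^ (fs.length + 1) * M = 2 ^ fs.length * M + 2 ^ fs.length * M := by ring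
    rw [e1, e2]
    exact h1

theorem poly_zero {Q : ℤ} : ∀ (n : ℕ) (p : Polynomial ℤ), p.natDegree < n →
    (∀ i, |p.coeff i| < Q) → Polynomial.eval Q p = 0 → p = 0 := by
  intro n
  induction n with
  | zero => intro p h; omega
  | succ n ih =>
    intro p hd hb he
    have hQ : 0 < Q := lt_of_le_of_lt (abs_nonneg _) (hb 0)
    have h1 := Polynomial.divX_mul_X_add p
    have h2 : Polynomial.eval Q p.divX * Q + p.coeff 0 = 0 := by
      rw [← he]
      conv_rhs => rw [← h1]
      rw [Polynomial.eval_add, Polynomial.eval_mul, Polynomial.eval_X, Polynomial.eval_C]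
    have h3 : p.coeff 0 = 0 := by
      have h4 : Q ∣ p.coeff 0 := ⟨-Polynomial.eval Q p.divX, by linarith⟩
      exact Int.eq_zero_of_abs_lt_dvd h4 (hb 0)
    have h4 : Polynomial.eval Q p.divX = 0 := by
      rw [h3, add_zero] at h2
      rcases mul_eq_zero.1 h2 with h5 | h5
      · exact h5
      · omega
    by_cases hp : p.natDegree = 0
    · have h5 := Polynomial.eq_C_of_natDegree_eq_zero hp
      rw [h5, h3, map_zero]
    · have h5 : p.divX = 0 := by
        apply ih
        · rw [Polynomial.natDegree_divX_eq_natDegree_tsub_one]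
          omega
        · intro i
          rw [Polynomial.coeff_divX]
          exact hb _
        · exact h4
      rw [← h1, h5, h3]
      simp

theorem eq_zero_of_psi {M : ℕ} {Q : ℤ} {E : PowerSeries (Polynomial ℤ)} (h : Bd M E)
    (hM : (M : ℤ) < Q) (he : psi Q E = 0) : E = 0 := by
  ext m : 1
  rw [map_zero]
  apply poly_zero (Q := Q) ((coeff m E).natDegree + 1) _ (Nat.lt_succ_self _)
  · intro i
    have h1 := h {(m, i)}
    rw [Finset.sum_singleton] at h1
    exact lt_of_le_of_lt h1 hM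
  · rw [← coeff_psi, he, map_zero]

/-! ### terms -/

/-- a term: coefficient, shift `z ↦ q^sg z` of the body, the body, the factors. -/
structure Tm where
  cf : List ℤ
  sg : ℕ
  body : List (List ℤ)
  fs : List (ℕ × ℕ)

noncomputable def Tm.sem (t : Tm) : PowerSeries (Polynomial ℤ) :=
  C (evQ t.cf) * (sgS t.sg (evS t.body) * prodF t.fs)

def Tm.cmp (Q : ℤ) (t : Tm) : List ℤ :=
  scZ (evI Q t.cf) (mulFs Q t.fs (sgZ (Q ^ t.sg) 1 (t.body.map (evI Q))))

def Tm.nrm (t : Tm) : ℕ := l1 t.cf * (2 ^ t.fs.length * l1L t.body)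

theorem Tm.evZ_cmp (Q : ℤ) (t : Tm) : evZ (t.cmp Q) = psi Q t.sem := by
  unfold Tm.cmp Tm.sem
  rw [evZ_scZ, evZ_mulFs, evZ_sgZ, map_mul, map_mul, psi_C, eval_evQ, psi_sgS, psi_evS, map_one,
    one_mul]

theorem Tm.Bd (t : Tm) : Bd t.nrm t.sem := by
  unfold Tm.sem Tm.nrm
  exact (((K5.Bd.evS t.body).rescale t.sg).prodF t.fs).evQ t.cf

noncomputable def semL (ts : List Tm) : PowerSeries (Polynomial ℤ) := (ts.map Tm.sem).sum

def cmpL (Q : ℤ) : List Tm → List ℤ
  | [] => []
  | t :: ts => addZ (t.cmp Q) (cmpL Q ts)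

def nrmL : List Tm → ℕ
  | [] => 0
  | t :: ts => t.nrm + nrmL ts

theorem semL_cons (t : Tm) (ts : List Tm) : semL (t :: ts) = t.sem + semL ts := by
  simp [semL]

theorem semL_nil : semL [] = 0 := by simp [semL]

theorem evZ_cmpL (Q : ℤ) (ts : List Tm) : evZ (cmpL Q ts) = psi Q (semL ts) := by
  induction ts with
  | nil => rw [semL_nil, cmpL, evZ, map_zero]
  | cons t ts ih => rw [cmpL, evZ_addZ, ih, semL_cons, map_add, t.evZ_cmp]

theorem Bd_semL (ts : List Tm) : Bd (nrmL ts) (semL ts) := by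
  induction ts with
  | nil => rw [semL_nil, nrmL]; exact Bd.zero
  | cons t ts ih => rw [nrmL, semL_cons]; exact t.Bd.add ih

def allZ : List ℤ → Bool
  | [] => true
  | a :: A => (a == 0) && allZ A

theorem evZ_allZ {A : List ℤ} (h : allZ A = true) : evZ A = 0 := by
  induction A with
  | nil => rfl
  | cons a A ih =>
    rw [allZ, Bool.and_eq_true] at h
    have h1 : a = 0 := by simpa using h.1
    rw [evZ, ih h.2, h1, map_zero, mul_zero, add_zero]

/-- the test. -/
def chk (Q : ℕ) (ts : List Tm) : Bool := allZ (cmpL (Q : ℤ) ts) && decide (nrmL ts < Q)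

theorem chk_sound {Q : ℕ} {ts : List Tm} (h : chk Q ts = true) : semL ts = 0 := by
  unfold chk at h
  rw [Bool.and_eq_true] at h
  obtain ⟨h1, h2⟩ := h
  have h3 : nrmL ts < Q := by simpa using h2
  apply eq_zero_of_psi (Bd_semL ts) (Q := (Q : ℤ)) (by exact_mod_cast h3)
  rw [← evZ_cmpL]
  exact evZ_allZ h1

end Pool.Agent.H45.K5
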