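import Pool.Agent.H45.K5.Cert1
import Pool.Agent.H45.K5.Cert2
import Pool.Agent.H45.K5.Cert3
import Pool.Agent.H45.K5.Cert4

set_option autoImplicit false
set_option maxRecDepth 100000

/-!
# `c_k` has nonnegative coefficients for `k ≤ 4` and all `n`
-/

namespace Pool.Agent.H45.K5

open PowerSeries Pool.H56.Inv Pool.Agent.H45.K3

theorem b0 : chk QQ (tsB Nf (cstf 0) 0) = true := by decide +kernel
theorem b1 : chk QQ (tsB Nf (cstf 1) 1) = true := by decide +kernel
theorem b2 : chk QQ (tsB Nf (cstf 2) 2) = true := by decide +kernel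
theorem b3 : chk QQ (tsB Nf (cstf 3) 3) = true := by decide +kernel
theorem b4 : chk QQ (tsB Nf (cstf 4) 4) = true := by decide +kernel
theorem p0 : permB 0 = true := by decide +kernel
theorem p1 : permB 1 = true := by decide +kernel
theorem p2 : permB 2 = true := by decide +kernel
theorem p3 : permB 3 = true := by decide +kernel
theorem p4 : permB 4 = true := by decide +kernel

theorem key4 (m : ℕ) (hm : m ≤ 4) (n : ℕ) (hn : 2 * m + 1 ≤ n) :
    Fp n (m + 1) = ∑ j ∈ Finset.range (m + 1), dd Nf j n * coeff (m - j) (Bs n j) := by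
  have hcases : m = 0 ∨ m = 1 ∨ m = 2 ∨ m = 3 ∨ m = 4 := by omega
  rcases hcases with rfl | rfl | rfl | rfl | rfl
  · exact key b0 p0 (Phi _) hn
  · exact key b1 p1 (Phi _) hn
  · exact key b2 p2 (Phi _) hn
  · exact key b3 p3 (Phi _) hn
  · exact key b4 p4 (Phi _) hn

theorem PS_N0 : PS (evS N0 * invF (D0 0)) := by
  have h : evS N0 = 1 := evS_one
  rw [h, one_mul]
  exact PS_invF _

/-- nonnegativity for `k ≤ 4`. -/
theorem nn_four {n : ℕ} {c : ℕ → Polynomial ℤ} (h : Ev n c) (hn : 1 ≤ n) {k : ℕ}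
    (hk : k ≤ (n - 1) / 2) (hk4 : k ≤ 4) : NN (c k) := by
  rw [ident key4 h k hk4 hk hn]
  have hcases : k = 0 ∨ k = 1 ∨ k = 2 ∨ k = 3 ∨ k = 4 := by omega
  rcases hcases with rfl | rfl | rfl | rfl | rfl
  · exact PS_N0 n
  · exact PS_N1 n
  · exact PS_N2 n
  · exact PS_N3 n
  · exact PS_N4 n

end Pool.Agent.H45.K5
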