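import Pool.Agent.H45.K5.Fin4
import Pool.Agent.H45.K5.Cert5

set_option autoImplicit false
set_option maxRecDepth 100000

/-!
# `c_5` has nonnegative coefficients for all `n`
-/

namespace Pool.Agent.H45.K5

open PowerSeries Pool.H56.Inv Pool.Agent.H45.K3

theorem b5 : chk QQ (tsB Nf (cstf 5) 5) = true := by decide +kernel
theorem p5 : permB 5 = true := by decide +kernel

theorem key5 (m : ℕ) (hm : m ≤ 5) (n : ℕ) (hn : 2 * m + 1 ≤ n) :
    Fp n (m + 1) = ∑ j ∈ Finset.range (m + 1), dd Nf j n * coeff (m - j) (Bs n j) := by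
  have hcases : m ≤ 4 ∨ m = 5 := by omega
  rcases hcases with h4 | rfl
  · exact key4 m h4 n hn
  · exact key b5 p5 (Phi _) hn

/-- nonnegativity for `k ≤ 5`. -/
theorem nn_five {n : ℕ} {c : ℕ → Polynomial ℤ} (h : Ev n c) (hn : 1 ≤ n) {k : ℕ}
    (hk : k ≤ (n - 1) / 2) (hk5 : k ≤ 5) : NN (c k) := by
  have hcases : k ≤ 4 ∨ k = 5 := by omega
  rcases hcases with h4 | rfl
  · exact nn_four h hn hk h4
  · rw [ident key5 h 5 le_rfl hk hn]
    exact PS_N5 n

end Pool.Agent.H45.K5
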