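import Pool.Agent.H45.K5.Eng
import Pool.Agent.H45.K5.Base

set_option autoImplicit false

/-!
# Interval factors, inverse series, basis coefficients
-/

namespace Pool.Agent.H45.K5

open PowerSeries Pool.H56.Inv Pool.Agent.H45.K3

/-- the factors `(d, e)` of the interval `[0, j]`. -/
def D0 (j : ℕ) : List (ℕ × ℕ) :=
  (List.range (j + 1)).map (fun i => (1, i)) ++
    (List.range (j + 1)).flatMap (fun b => (List.range b).map fun a => (2, a + b))

/-- the factors of the interval `[s, s + j]`. -/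
def Df (s j : ℕ) : List (ℕ × ℕ) := (D0 j).map fun f => (f.1, f.2 + s * f.1)

/-- inverse of `prodF`. -/
noncomputable def invF (fs : List (ℕ × ℕ)) : PowerSeries (Polynomial ℤ) :=
  (fs.map fun f => geo (Polynomial.X ^ f.2) f.1).prod

theorem invF_nil : invF [] = 1 := by simp [invF]

theorem invF_cons (f : ℕ × ℕ) (fs : List (ℕ × ℕ)) :
    invF (f :: fs) = geo (Polynomial.X ^ f.2) f.1 * invF fs := by simp [invF]

theorem invF_mul {fs : List (ℕ × ℕ)} (h : ∀ f ∈ fs, 0 < f.1) : invF fs * prodF fs = 1 := by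
  induction fs with
  | nil => rw [invF_nil, prodF_nil, one_mul]
  | cons f fs ih =>
    have h1 := ih fun g hg => h g (List.mem_cons_of_mem _ hg)
    have h2 := geo_mul (Polynomial.X ^ f.2) (h f List.mem_cons_self)
    rw [invF_cons, prodF_cons]
    calc _ = (geo (Polynomial.X ^ f.2) f.1 * (1 - C (Polynomial.X ^ f.2) * X ^ f.1))
          * (invF fs * prodF fs) := by ring
      _ = 1 := by rw [h1, h2, one_mul]

theorem prodF_append (fs gs : List (ℕ × ℕ)) : prodF (fs ++ gs) = prodF fs * prodF gs := by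
  simp [prodF]

theorem invF_append (fs gs : List (ℕ × ℕ)) : invF (fs ++ gs) = invF fs * invF gs := by
  simp [invF]

theorem prodF_perm {fs gs : List (ℕ × ℕ)} (h : fs.Perm gs) : prodF fs = prodF gs :=
  (h.map _).prod_eq

theorem invF_perm {fs gs : List (ℕ × ℕ)} (h : fs.Perm gs) : invF fs = invF gs :=
  (h.map _).prod_eq

theorem D0_pos (j : ℕ) : ∀ f ∈ D0 j, 0 < f.1 := by
  intro f hf
  unfold D0 at hf
  rw [List.mem_append] at hf
  rcases hf with hf | hf
  · rw [List.mem_map] at hf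
    obtain ⟨i, _, rfl⟩ := hf
    exact one_pos
  · rw [List.mem_flatMap] at hf
    obtain ⟨b, _, hf⟩ := hf
    rw [List.mem_map] at hf
    obtain ⟨a, _, rfl⟩ := hf
    exact two_pos

theorem Df_pos (s j : ℕ) : ∀ f ∈ Df s j, 0 < f.1 := by
  intro f hf
  unfold Df at hf
  rw [List.mem_map] at hf
  obtain ⟨g, hg, rfl⟩ := hf
  exact D0_pos j g hg

theorem sgS_C (s : ℕ) (p : Polynomial ℤ) : sgS s (C p) = C p := by
  unfold sgS
  exact rescale_C' _ _

theorem sgS_X (s : ℕ) : sgS s X = C (Polynomial.X ^ s) * X := by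
  unfold sgS
  rw [PowerSeries.rescale_X]

theorem sgS_prodF (s : ℕ) (fs : List (ℕ × ℕ)) :
    sgS s (prodF fs) = prodF (fs.map fun f => (f.1, f.2 + s * f.1)) := by
  induction fs with
  | nil => rw [List.map_nil, prodF_nil, map_one]
  | cons f fs ih =>
    rw [List.map_cons, prodF_cons, prodF_cons, map_mul, ih, map_sub, map_one, map_mul,
      map_pow (sgS s) X, sgS_C, sgS_X, mul_pow, ← map_pow C, ← pow_mul, ← mul_assoc, ← map_mul,
      ← pow_add]

theorem sgS_invF (s j : ℕ) : sgS s (invF (D0 j)) = invF (Df s j) := by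
  have h1 := congrArg (sgS s) (invF_mul (D0_pos j))
  rw [map_mul, map_one, sgS_prodF] at h1
  have h2 := invF_mul (Df_pos s j)
  have h3 : (D0 j).map (fun f => (f.1, f.2 + s * f.1)) = Df s j := rfl
  rw [h3] at h1
  calc sgS s (invF (D0 j)) = sgS s (invF (D0 j)) * (invF (Df s j) * prodF (Df s j)) := by
        rw [h2, mul_one]
    _ = (sgS s (invF (D0 j)) * prodF (Df s j)) * invF (Df s j) := by ring
    _ = _ := by rw [h1, one_mul]

/-- if `fs` is `gs` and `hs` together then `prodF hs / prodF fs = 1 / prodF gs`. -/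
theorem prodF_invF {fs gs hs : List (ℕ × ℕ)} (h : fs.Perm (gs ++ hs))
    (hf : ∀ f ∈ fs, 0 < f.1) : prodF hs * invF fs = invF gs := by
  have hg : ∀ f ∈ gs, 0 < f.1 := fun f hfg => hf f (h.mem_iff.2 (List.mem_append_left _ hfg))
  have h1 := invF_mul hg
  have h2 := invF_mul hf
  rw [prodF_perm h, prodF_append] at h2
  calc prodF hs * invF fs = (invF gs * prodF gs) * (prodF hs * invF fs) := by rw [h1, one_mul]
    _ = invF gs * (invF fs * (prodF gs * prodF hs)) := by ring
    _ = invF gs := by rw [h2, mul_one]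

theorem coeff_sgS (s n : ℕ) (E : PowerSeries (Polynomial ℤ)) :
    coeff n (sgS s E) = Polynomial.X ^ (s * n) * coeff n E := by
  unfold sgS
  rw [coeff_rescale, pow_mul]

/-! ### basis coefficients -/

/-- `(q;q)_r` -/
noncomputable def qf : ℕ → Polynomial ℤ
  | 0 => 1
  | r + 1 => qf r * (1 - Polynomial.X ^ (r + 1))

theorem qf_ne (r : ℕ) : qf r ≠ 0 := by
  induction r with
  | zero => exact one_ne_zero
  | succ r ih => exact mul_ne_zero ih (one_sub_ne r)

/-- `q^(j r) (q;q)_r coeff_r (Bs n j)` as a function of `x = q^n`. -/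
noncomputable def Bc (j : ℕ) (x : Polynomial ℤ) : ℕ → Polynomial ℤ
  | 0 => 1
  | 1 => (1 + Polynomial.X ^ (j + 1)) * (Polynomial.X ^ j - x)
  | r + 2 => (1 + Polynomial.X ^ (j + r + 2)) * (Polynomial.X ^ j - x) * Bc j x (r + 1)
      + (1 - Polynomial.X ^ (r + 1)) * (1 - Polynomial.X ^ (2 * j + r + 2))
        * Polynomial.X ^ j * x * Bc j x r

theorem Bc_eq {n j : ℕ} (hj : 2 * j + 1 ≤ n) : ∀ r : ℕ,
    Bc j (Polynomial.X ^ n) r = Polynomial.X ^ (j * r) * qf r * PowerSeries.coeff r (Bs n j)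
      ∧ Bc j (Polynomial.X ^ n) (r + 1)
        = Polynomial.X ^ (j * (r + 1)) * qf (r + 1) * PowerSeries.coeff (r + 1) (Bs n j) := by
  obtain ⟨m, hm1, hm2⟩ : ∃ m, n - j = m ∧ n = j + m := ⟨n - j, rfl, by omega⟩
  have hx : (Polynomial.X : Polynomial ℤ) ^ n = Polynomial.X ^ j * Polynomial.X ^ m := by
    rw [hm2, pow_add]
  intro r
  induction r with
  | zero =>
    constructor
    · rw [Bc, mul_zero, pow_zero, qf, Bs_zero, one_mul, one_mul]
    · have h1 := Bs_one hj
      rw [hm1] at h1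
      rw [Bc, qf, qf, zero_add, mul_one, one_mul, pow_one, mul_assoc, h1, hx]
      ring
  | succ r ih =>
    refine ⟨ih.2, ?_⟩
    have h1 := Bs_two hj r
    rw [hm1] at h1
    have h7 : qf (r + 2) = qf (r + 1) * (1 - Polynomial.X ^ (r + 2)) := rfl
    rw [show r + 1 + 1 = r + 2 from rfl, Bc, ih.1, ih.2, h7]
    have h2 : qf (r + 1) = qf r * (1 - Polynomial.X ^ (r + 1)) := rfl
    have h3 : Polynomial.X ^ (j * (r + 2)) * (qf (r + 1) * (1 - Polynomial.X ^ (r + 2)))
        * PowerSeries.coeff (r + 2) (Bs n j)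
        = Polynomial.X ^ (j * (r + 2)) * qf (r + 1) * ((1 - Polynomial.X ^ (r + 2))
          * PowerSeries.coeff (r + 2) (Bs n j)) := by ring
    rw [h3, h1, h2, hx]
    have h4 : (Polynomial.X : Polynomial ℤ) ^ (j * (r + 2))
        = Polynomial.X ^ (j * r) * Polynomial.X ^ j * Polynomial.X ^ j := by
      rw [← pow_add, ← pow_add]; congr 1
    have h5 : (Polynomial.X : Polynomial ℤ) ^ (j * (r + 1))
        = Polynomial.X ^ (j * r) * Polynomial.X ^ j := by
      rw [← pow_add]; congr 1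
    rw [h4, h5]
    ring

end Pool.Agent.H45.K5
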