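import Pool.Agent.H45.K5.Iv

set_option autoImplicit false

/-!
# The test for one level of the triangular system
-/

namespace Pool.Agent.H45.K5

open PowerSeries Pool.H56.Inv Pool.Agent.H45.K3

theorem evQ_addZ : ∀ A B : List ℤ, evQ (addZ A B) = evQ A + evQ B
  | [], B => by simp [addZ, evQ]
  | a :: A, [] => by simp [addZ, evQ]
  | a :: A, b :: B => by
      rw [addZ, evQ, evQ, evQ, evQ_addZ A B, map_add]
      ring

theorem evQ_scZ (c : ℤ) (A : List ℤ) : evQ (scZ c A) = Polynomial.C c * evQ A := by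
  unfold scZ
  induction A with
  | nil => simp [evQ]
  | cons a A ih => rw [List.map_cons, evQ, evQ, ih, map_mul]; ring

theorem evQ_shZ (d : ℕ) (A : List ℤ) : evQ (shZ d A) = Polynomial.X ^ d * evQ A := by
  induction d with
  | zero => simp [shZ]
  | succ d ih => rw [shZ, evQ, ih, map_zero, zero_add, pow_succ]; ring

/-- `c q^e l` -/
def mX (e : ℕ) (c : ℤ) (l : List ℤ) : List ℤ := shZ e (scZ c l)

theorem evQ_mX (e : ℕ) (c : ℤ) (l : List ℤ) :
    evQ (mX e c l) = Polynomial.C c * Polynomial.X ^ e * evQ l := by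
  unfold mX
  rw [evQ_shZ, evQ_scZ]
  ring

/-- `(1 + c q^e) l` -/
def binQ (e : ℕ) (c : ℤ) (l : List ℤ) : List ℤ := addZ l (mX e c l)

theorem evQ_binQ (e : ℕ) (c : ℤ) (l : List ℤ) :
    evQ (binQ e c l) = (1 + Polynomial.C c * Polynomial.X ^ e) * evQ l := by
  unfold binQ
  rw [evQ_addZ, evQ_mX]
  ring

/-- polynomials in `x` with coefficients in `ℤ[q]`. -/
noncomputable def evX (x : Polynomial ℤ) : List (List ℤ) → Polynomial ℤ
  | [] => 0
  | l :: L => evQ l + x * evX x L

def addX : List (List ℤ) → List (List ℤ) → List (List ℤ)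
  | [], B => B
  | A, [] => A
  | a :: A, b :: B => addZ a b :: addX A B

theorem evX_addX (x : Polynomial ℤ) : ∀ A B, evX x (addX A B) = evX x A + evX x B
  | [], B => by simp [addX, evX]
  | a :: A, [] => by simp [addX, evX]
  | a :: A, b :: B => by
      rw [addX, evX, evX, evX, evX_addX x A B, evQ_addZ]
      ring

theorem evX_map (x c : Polynomial ℤ) (f : List ℤ → List ℤ) (hf : ∀ l, evQ (f l) = c * evQ l)
    (L : List (List ℤ)) : evX x (L.map f) = c * evX x L := by
  induction L with
  | nil => simp [evX]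
  | cons l L ih => rw [List.map_cons, evX, evX, ih, hf]; ring

/-- the coefficients of `Bc`. -/
def bet (j : ℕ) : ℕ → List (List ℤ)
  | 0 => [[1]]
  | 1 => [binQ (j + 1) 1 (mX j 1 [1]), mX 0 (-1) (binQ (j + 1) 1 [1])]
  | r + 2 => addX ((bet j (r + 1)).map fun l => binQ (j + r + 2) 1 (mX j 1 l))
      (addX ([] :: (bet j (r + 1)).map fun l => mX 0 (-1) (binQ (j + r + 2) 1 l))
        ([] :: (bet j r).map fun l =>
          mX j 1 (binQ (r + 1) (-1) (binQ (2 * j + r + 2) (-1) l))))

theorem evQ_one : evQ [1] = 1 := by simp [evQ]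

theorem evX_bet (j : ℕ) (x : Polynomial ℤ) : ∀ r : ℕ, evX x (bet j r) = Bc j x r
  | 0 => by
      rw [bet, Bc, evX, evX, evQ_one]
      ring
  | 1 => by
      rw [bet, Bc, evX, evX, evX, evQ_binQ, evQ_mX, evQ_mX, evQ_binQ, evQ_one]
      simp only [map_one, map_neg]
      ring
  | r + 2 => by
      rw [bet, Bc, evX_addX, evX_addX, evX, evX, evX_bet j x r |>.symm, (evX_bet j x (r + 1)).symm]
      rw [evX_map x ((1 + Polynomial.X ^ (j + r + 2)) * Polynomial.X ^ j) _ ?_,
        evX_map x (-(1 + Polynomial.X ^ (j + r + 2))) _ ?_,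
        evX_map x (Polynomial.X ^ j * ((1 - Polynomial.X ^ (r + 1))
          * (1 - Polynomial.X ^ (2 * j + r + 2)))) _ ?_]
      · simp only [evQ]
        ring
      · intro l
        rw [evQ_mX, evQ_binQ, evQ_binQ]
        simp only [map_one, map_neg]
        ring
      · intro l
        rw [evQ_mX, evQ_binQ]
        simp only [map_one, map_neg]
        ring
      · intro l
        rw [evQ_binQ, evQ_mX]
        simp only [map_one]
        ring

theorem evX_sum (x : Polynomial ℤ) : ∀ (L : List (List ℤ)) (k : ℕ), L.length ≤ k →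
    evX x L = ∑ s ∈ Finset.range k, evQ (L.getD s []) * x ^ s
  | [], k, _ => by
      rw [evX]
      symm
      apply Finset.sum_eq_zero
      intro s _
      simp [evQ]
  | l :: L, 0, h => by simp at h
  | l :: L, k + 1, h => by
      rw [evX, evX_sum x L k (by simpa using h), Finset.sum_range_succ', Finset.mul_sum,
        add_comm]
      congr 1
      · apply Finset.sum_congr rfl
        intro s _
        rw [List.getD_cons_succ, pow_succ]
        ring
      · simp

/-- multiplication by `(1 - q^(a+1)) ⋯ (1 - q^(a+n))`. -/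
def qr (a : ℕ) : ℕ → List ℤ → List ℤ
  | 0, l => l
  | n + 1, l => binQ (a + n + 1) (-1) (qr a n l)

theorem evQ_qr (a n : ℕ) (l : List ℤ) : evQ (qr a n l) * qf a = qf (a + n) * evQ l := by
  induction n with
  | zero => rw [qr, add_zero, mul_comm]
  | succ n ih =>
    have h1 : qf (a + (n + 1)) = qf (a + n) * (1 - Polynomial.X ^ (a + n + 1)) := rfl
    rw [qr, evQ_binQ, mul_assoc, ih, h1]
    simp only [map_one, map_neg]
    ring

/-- the exponent that clears denominators. -/
def Mx (m : ℕ) : ℕ := m * m / 4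

theorem Mx_le {m j : ℕ} (hj : j ≤ m) : j * (m - j) ≤ Mx m := by
  unfold Mx
  rw [Nat.le_div_iff_mul_le (by norm_num)]
  obtain ⟨d, rfl⟩ : ∃ d, m = j + d := ⟨m - j, by omega⟩
  rw [Nat.add_sub_cancel_left]
  zify
  nlinarith [sq_nonneg ((j : ℤ) - d)]

def cfB (m j s : ℕ) : List ℤ :=
  mX (Mx m - j * (m - j)) 1 (qr (m - j) j ((bet j (m - j)).getD s []))

def tB (N : ℕ → List (List ℤ)) (m j s : ℕ) : Tm :=
  ⟨cfB m j s, s, N j, (D0 m).diff (Df s j)⟩

def tsB (N : ℕ → List (List ℤ)) (cst : List ℤ) (m : ℕ) : List Tm :=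
  ⟨cst, 0, [[1]], D0 m⟩ :: ⟨mX (Mx m) (-1) (qr 0 m [1]), 0, [[1]], []⟩ ::
    (List.range (m + 1)).flatMap fun j => (List.range (m - j + 1)).map fun s => tB N m j s

/-- the side conditions. -/
def permB (m : ℕ) : Bool :=
  (List.range (m + 1)).all fun j => decide ((bet j (m - j)).length ≤ m - j + 1) &&
    (List.range (m - j + 1)).all fun s => (D0 m).isPerm (Df s j ++ (D0 m).diff (Df s j))

theorem semL_append (ts us : List Tm) : semL (ts ++ us) = semL ts + semL us := by
  simp [semL]

theorem semL_map (f : ℕ → Tm) (k : ℕ) :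
    semL ((List.range k).map f) = ∑ s ∈ Finset.range k, (f s).sem := by
  induction k with
  | zero => simp [semL]
  | succ k ih =>
    rw [List.range_succ, List.map_append, semL_append, ih, Finset.sum_range_succ]
    simp [semL]

theorem semL_flatMap (f : ℕ → List Tm) (k : ℕ) :
    semL ((List.range k).flatMap f) = ∑ j ∈ Finset.range k, semL (f j) := by
  induction k with
  | zero => simp [semL]
  | succ k ih =>
    rw [List.range_succ, List.flatMap_append, semL_append, ih, Finset.sum_range_succ]
    simp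

/-- the candidates. -/
noncomputable def dd (N : ℕ → List (List ℤ)) (j n : ℕ) : Polynomial ℤ :=
  coeff n (evS (N j) * invF (D0 j))

theorem evS_one : evS [[1]] = 1 := by
  rw [evS, evS, evQ_one, map_one, mul_zero, add_zero]

theorem key {Q : ℕ} {N : ℕ → List (List ℤ)} {cst : List ℤ} {m : ℕ}
    (hchk : chk Q (tsB N cst m) = true) (hperm : permB m = true)
    (hPhi : (mk fun n => Fp n (m + 1)) = invF (D0 m)) {n : ℕ} (hn : 2 * m + 1 ≤ n) :
    Fp n (m + 1) = ∑ j ∈ Finset.range (m + 1), dd N j n * coeff (m - j) (Bs n j) := by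
  have h0 := chk_sound hchk
  unfold tsB at h0
  rw [semL_cons, semL_cons, semL_flatMap] at h0
  have hp : ∀ j, j ≤ m → (bet j (m - j)).length ≤ m - j + 1 ∧
      ∀ s, s ≤ m - j → (D0 m).Perm (Df s j ++ (D0 m).diff (Df s j)) := by
    intro j hj
    unfold permB at hperm
    rw [List.all_eq_true] at hperm
    have h1 := hperm j (List.mem_range.2 (by omega))
    rw [Bool.and_eq_true, List.all_eq_true] at h1
    refine ⟨by simpa using h1.1, fun s hs => ?_⟩
    exact List.isPerm_iff.1 (h1.2 s (List.mem_range.2 (by omega)))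
  have hD := invF_mul (D0_pos m)
  -- multiply by the inverse
  have h1 := congrArg (fun E => E * invF (D0 m)) h0
  simp only [zero_mul, add_mul] at h1
  rw [Finset.sum_mul] at h1
  have e1 : (Tm.sem ⟨cst, 0, [[1]], D0 m⟩) * invF (D0 m) = C (evQ cst) := by
    unfold Tm.sem
    simp only
    rw [evS_one, map_one, one_mul, mul_assoc, mul_comm (prodF _), hD, mul_one]
  have e2 : (Tm.sem ⟨mX (Mx m) (-1) (qr 0 m [1]), 0, [[1]], []⟩) * invF (D0 m)
      = -(C (Polynomial.X ^ Mx m * qf m) * (mk fun n => Fp n (m + 1))) := by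
    unfold Tm.sem
    simp only
    have h2 := evQ_qr 0 m [1]
    rw [evQ_one, mul_one, zero_add] at h2
    have h3 : qf 0 = 1 := rfl
    rw [h3, mul_one] at h2
    rw [evS_one, map_one, one_mul, prodF_nil, mul_one, hPhi, evQ_mX, h2]
    simp only [map_neg, map_one, neg_mul, one_mul]
  have e3 : ∀ j ∈ Finset.range (m + 1),
      semL ((List.range (m - j + 1)).map fun s => tB N m j s) * invF (D0 m)
      = ∑ s ∈ Finset.range (m - j + 1), C (evQ (cfB m j s))
          * sgS s (evS (N j) * invF (D0 j)) := by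
    intro j hj
    rw [Finset.mem_range] at hj
    rw [semL_map, Finset.sum_mul]
    apply Finset.sum_congr rfl
    intro s hs
    rw [Finset.mem_range] at hs
    have h2 := prodF_invF ((hp j (by omega)).2 s (by omega)) (D0_pos m)
    unfold Tm.sem tB
    simp only
    rw [map_mul, sgS_invF, ← h2]
    ring
  rw [e1, e2, Finset.sum_congr rfl e3] at h1
  -- coefficients
  have h2 := congrArg (coeff n) h1
  rw [map_add, map_add, map_sum, coeff_C, if_neg (by omega), zero_add, map_neg, coeff_C_mul,
    coeff_mk, map_zero] at h2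
  have h3 : ∀ j ∈ Finset.range (m + 1), coeff n (∑ s ∈ Finset.range (m - j + 1),
      C (evQ (cfB m j s)) * sgS s (evS (N j) * invF (D0 j)))
      = Polynomial.X ^ Mx m * qf m * (dd N j n * coeff (m - j) (Bs n j)) := by
    intro j hj
    rw [Finset.mem_range] at hj
    have hlen := (hp j (by omega)).1
    have h4 : coeff n (∑ s ∈ Finset.range (m - j + 1),
        C (evQ (cfB m j s)) * sgS s (evS (N j) * invF (D0 j)))
        = (∑ s ∈ Finset.range (m - j + 1), evQ (cfB m j s) * (Polynomial.X ^ n) ^ s)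
          * dd N j n := by
      rw [map_sum, Finset.sum_mul]
      apply Finset.sum_congr rfl
      intro s _
      rw [coeff_C_mul, coeff_sgS, ← pow_mul, mul_comm n s]
      unfold dd
      ring
    have h5 : (∑ s ∈ Finset.range (m - j + 1), evQ (cfB m j s) * (Polynomial.X ^ n) ^ s)
        = Polynomial.X ^ Mx m * qf m * coeff (m - j) (Bs n j) := by
      apply mul_left_cancel₀ (qf_ne (m - j))
      have h6 : qf (m - j) * (∑ s ∈ Finset.range (m - j + 1),
          evQ (cfB m j s) * (Polynomial.X ^ n) ^ s)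
          = Polynomial.X ^ (Mx m - j * (m - j)) * qf m
            * evX (Polynomial.X ^ n) (bet j (m - j)) := by
        rw [evX_sum _ _ _ hlen, Finset.mul_sum, Finset.mul_sum]
        apply Finset.sum_congr rfl
        intro s _
        unfold cfB
        rw [evQ_mX]
        have h7 := evQ_qr (m - j) j ((bet j (m - j)).getD s [])
        rw [show m - j + j = m by omega] at h7
        simp only [map_one, one_mul]
        linear_combination (Polynomial.X ^ (Mx m - j * (m - j)) * (Polynomial.X ^ n) ^ s) * h7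
      rw [h6, evX_bet, (Bc_eq (n := n) (j := j) (by omega) (m - j)).1]
      have h8 : (Polynomial.X : Polynomial ℤ) ^ Mx m
          = Polynomial.X ^ (Mx m - j * (m - j)) * Polynomial.X ^ (j * (m - j)) := by
        rw [← pow_add, Nat.sub_add_cancel (Mx_le (by omega))]
      rw [h8]
      ring
    rw [h4, h5]
    ring
  rw [Finset.sum_congr rfl h3, ← Finset.mul_sum] at h2
  apply mul_left_cancel₀ (mul_ne_zero (pow_ne_zero (Mx m) X_ne) (qf_ne m))
  linear_combination -h2

end Pool.Agent.H45.K5
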