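import Pool.Agent.H45.K5.Key

set_option autoImplicit false

/-!
# Positivity certificates, and the generating function for all numbers of nodes
-/

namespace Pool.Agent.H45.K5

open PowerSeries Pool.H56.Inv Pool.Agent.H45.K3

theorem prodR (g : ℕ → PowerSeries (Polynomial ℤ)) (k : ℕ) :
    ((List.range k).map g).prod = ∏ i ∈ Finset.range k, g i := by
  induction k with
  | zero => simp
  | succ k ih =>
    rw [List.range_succ, List.map_append, List.prod_append, ih, Finset.prod_range_succ]
    simp

theorem invF_flatMap (f : ℕ → List (ℕ × ℕ)) (k : ℕ) :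
    invF ((List.range k).flatMap f) = ∏ j ∈ Finset.range k, invF (f j) := by
  induction k with
  | zero => simp [invF]
  | succ k ih =>
    rw [List.range_succ, List.flatMap_append, invF_append, ih, Finset.prod_range_succ]
    simp

theorem invF_map (f : ℕ → ℕ × ℕ) (k : ℕ) :
    invF ((List.range k).map f) = ∏ i ∈ Finset.range k, geo (Polynomial.X ^ (f i).2) (f i).1 := by
  unfold invF
  rw [List.map_map, prodR]
  rfl

theorem Phi (m : ℕ) : (mk fun n => Fp n (m + 1)) = invF (D0 m) := by
  rw [Fp_gf]
  have h1 : ∏ e ∈ Tri (m + 1), geo (Polynomial.X ^ we e) (de e)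
      = ∏ b ∈ Finset.range (m + 1), ∏ a ∈ Finset.range (b + 1),
        (if a = b then geo (Polynomial.X ^ a) 1 else geo (Polynomial.X ^ (a + b)) 2) := by
    unfold Tri
    rw [Finset.prod_filter, Fintype.prod_prod_type_right,
      Finset.prod_range (fun b => ∏ a ∈ Finset.range (b + 1),
        (if a = b then geo (Polynomial.X ^ a) 1 else geo (Polynomial.X ^ (a + b)) 2))]
    apply Finset.prod_congr rfl
    intro b _
    have h2 : ∀ a : Fin (m + 1), (if a ≤ b then geo (Polynomial.X ^ we (a, b)) (de (a, b)) else 1)
        = (fun a : ℕ => if a ≤ (b : ℕ) then (if a = (b : ℕ) then geo (Polynomial.X ^ a) 1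
          else geo (Polynomial.X ^ (a + (b : ℕ))) 2) else 1) (a : ℕ) := by
      intro a
      simp only [Fin.le_def]
      split_ifs with h3 h4
      · have : a = b := Fin.ext h4
        unfold we de
        simp [this]
      · have : a ≠ b := fun h => h4 (by rw [h])
        unfold we de
        simp [this]
      · rfl
    rw [Finset.prod_congr rfl fun a _ => h2 a,
      ← Finset.prod_range (n := m + 1) (fun a : ℕ => if a ≤ (b : ℕ) then (if a = (b : ℕ) then
        geo (Polynomial.X ^ a) 1 else geo (Polynomial.X ^ (a + (b : ℕ))) 2) else 1),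
      ← Finset.prod_filter]
    apply Finset.prod_congr
    · ext x
      simp only [Finset.mem_filter, Finset.mem_range]
      omega
    · intro x _
      rfl
  rw [h1]
  unfold D0
  rw [invF_append, invF_map, invF_flatMap, ← Finset.prod_mul_distrib]
  apply Finset.prod_congr rfl
  intro b _
  rw [Finset.prod_range_succ, if_pos rfl, invF_map, mul_comm]
  congr 1
  apply Finset.prod_congr rfl
  intro a ha
  rw [Finset.mem_range] at ha
  rw [if_neg (by omega)]

theorem NN_evQ {l : List ℤ} (h : (l.all fun a => decide (0 ≤ a)) = true) : NN (evQ l) := by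
  induction l with
  | nil => rw [evQ]; exact NN.zero
  | cons a l ih =>
    rw [List.all_cons, Bool.and_eq_true] at h
    rw [evQ]
    have h1 : 0 ≤ a := by simpa using h.1
    refine NN.add ?_ ?_
    · intro M
      rw [Polynomial.coeff_C]
      split_ifs
      · exact h1
      · exact le_rfl
    · have := NN.X_pow 1
      rw [pow_one] at this
      exact this.mul (ih h.2)

theorem PS_evS {L : List (List ℤ)}
    (h : (L.all fun l => l.all fun a => decide (0 ≤ a)) = true) : PS (evS L) := by
  induction L with
  | nil =>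
    rw [evS]
    intro n
    rw [map_zero]
    exact NN.zero
  | cons l L ih =>
    rw [List.all_cons, Bool.and_eq_true] at h
    rw [evS]
    refine PS.add ?_ (PS.X.mul (ih h.2))
    intro n
    rw [coeff_C]
    split_ifs
    · exact NN_evQ h.1
    · exact NN.zero

theorem PS_invF (fs : List (ℕ × ℕ)) : PS (invF fs) := by
  induction fs with
  | nil => rw [invF_nil]; exact PS.one
  | cons f fs ih => rw [invF_cons]; exact (PS.geo _ _).mul ih

def tsC (N : List (List ℤ)) (cs : List (List (List ℤ) × List (ℕ × ℕ))) : List Tm :=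
  ⟨[-1], 0, N, []⟩ :: cs.map fun c => ⟨[1], 0, c.1, c.2⟩

def nnC (j : ℕ) (cs : List (List (List ℤ) × List (ℕ × ℕ))) : Bool :=
  cs.all fun c => (c.1.all fun l => l.all fun a => decide (0 ≤ a)) &&
    (D0 j).isPerm ((D0 j).diff c.2 ++ c.2)

theorem pos_aux {j : ℕ} : ∀ {cs : List (List (List ℤ) × List (ℕ × ℕ))}, nnC j cs = true →
    PS (semL (cs.map fun c => ⟨[1], 0, c.1, c.2⟩) * invF (D0 j))
  | [], _ => by
      rw [List.map_nil, semL_nil, zero_mul]
      intro n
      rw [map_zero]
      exact NN.zero
  | c :: cs, h => by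
      unfold nnC at h
      rw [List.all_cons, Bool.and_eq_true, Bool.and_eq_true] at h
      have ih := pos_aux (cs := cs) h.2
      rw [List.map_cons, semL_cons, add_mul]
      refine PS.add ?_ ih
      have h1 := prodF_invF (List.isPerm_iff.1 h.1.2) (D0_pos j)
      have h2 : sgS 0 (evS c.1) = evS c.1 := by
        ext n : 1
        rw [coeff_sgS, zero_mul, pow_zero, one_mul]
      unfold Tm.sem
      simp only
      rw [evQ_one, map_one, one_mul, h2, mul_assoc, h1]
      exact (PS_evS h.1.1).mul (PS_invF _)

theorem pos {Q j : ℕ} {N : List (List ℤ)} {cs : List (List (List ℤ) × List (ℕ × ℕ))}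
    (h : chk Q (tsC N cs) = true) (hn : nnC j cs = true) : PS (evS N * invF (D0 j)) := by
  have h0 := chk_sound h
  unfold tsC at h0
  rw [semL_cons] at h0
  have h2 : sgS 0 (evS N) = evS N := by
    ext n : 1
    rw [coeff_sgS, zero_mul, pow_zero, one_mul]
  have h1 : (Tm.sem ⟨[-1], 0, N, []⟩) = -evS N := by
    unfold Tm.sem
    simp only
    have h3 : evQ [-1] = -1 := by simp [evQ]
    rw [h3, h2, prodF_nil, mul_one, map_neg, map_one]
    ring
  rw [h1] at h0
  have h3 : evS N = semL (cs.map fun c => ⟨[1], 0, c.1, c.2⟩) := by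
    linear_combination -h0
  rw [h3]
  exact pos_aux hn

/-- identification of all `c_k` with `k ≤ K`. -/
theorem ident {N : ℕ → List (List ℤ)} {K : ℕ}
    (hkey : ∀ m, m ≤ K → ∀ n, 2 * m + 1 ≤ n →
      Fp n (m + 1) = ∑ j ∈ Finset.range (m + 1), dd N j n * coeff (m - j) (Bs n j))
    {n : ℕ} {c : ℕ → Polynomial ℤ} (h : Ev n c) :
    ∀ k, k ≤ K → k ≤ (n - 1) / 2 → 1 ≤ n → c k = dd N k n := by
  intro k
  induction k using Nat.strong_induction_on with
  | _ k ih =>
    intro hk hkn hn
    have h1 := h k hkn
    have h2 := hkey k hk n (by omega)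
    rw [h1, Finset.sum_range_succ, Finset.sum_range_succ, Nat.sub_self, Bs_zero, mul_one,
      mul_one] at h2
    have h3 : ∑ j ∈ Finset.range k, c j * coeff (k - j) (Bs n j)
        = ∑ j ∈ Finset.range k, dd N j n * coeff (k - j) (Bs n j) := by
      apply Finset.sum_congr rfl
      intro j hj
      rw [Finset.mem_range] at hj
      rw [ih j hj (by omega) (by omega) hn]
    rw [h3] at h2
    exact add_left_cancel h2

end Pool.Agent.H45.K5
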